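import Mathlib
import Pool.Agent.KS6_83.NC.All

set_option autoImplicit false

/-!
# Waldschmidt constants of generic points of the plane of which some lie on a cubic

Let `k` be an algebraically closed field of any characteristic, `r = p + q > 9`, and let the points
be generic subject to the condition that the first `p` of them lie on a plane cubic.  Then the
Waldschmidt constant is `√r` exactly when `p ≤ 3 √r`.  If `9 (p - 9) ≤ p q` it is `√r` for
`p ≤ 3 √r` and `3 + √(q (p - 9) / p)` for `p > 3 √r`.  For `p = 0` this is the case of generic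
points.
-/

namespace Pool.Agent.Results.MP_d0dfcd_ag.PointsOnCubic

open MvPolynomial Filter Topology

universe u

/-- The form `F` vanishes to order at least `m` at the point `(1 : p 0 : p 1)`: it lies in the
`m`-th power of the ideal of the point. -/
def VanishesAt {k : Type u} [Field k] (p : Fin 2 → k) (m : ℕ) (F : MvPolynomial (Fin 3) k) :
    Prop :=
  F ∈ (Ideal.span {X 1 - C (p 0) * X 0, X 2 - C (p 1) * X 0} :
    Ideal (MvPolynomial (Fin 3) k)) ^ m

/-- The least degree `a(S, m)` of a nonzero form vanishing to order at least `m` at every point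
`(1 : P i 0 : P i 1)`. -/
noncomputable def leastDegree {k : Type u} [Field k] {r : ℕ} (P : Fin r → Fin 2 → k) (m : ℕ) : ℕ :=
  sInf {d | ∃ F : MvPolynomial (Fin 3) k, F.IsHomogeneous d ∧ F ≠ 0 ∧ ∀ i, VanishesAt (P i) m F}

/-- The points `(1 : P i 0 : P i 1)`, `i < p + q`, are generic subject to the condition that the
first `p` of them lie on a plane cubic: some nonzero cubic form vanishes at the first `p` points,
and the first affine coordinates of all the points, the second affine coordinates of the first nine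
points and those of the last `q` points are algebraically independent over the prime field `⊥`.
For `p ≤ 9` this says that all `2 (p + q)` affine coordinates are algebraically independent. -/
def GenericOnCubic {k : Type u} [Field k] (p q : ℕ) (P : Fin (p + q) → Fin 2 → k) : Prop :=
  (∃ G : MvPolynomial (Fin 3) k, G.IsHomogeneous 3 ∧ G ≠ 0 ∧
    ∀ i : Fin (p + q), i.val < p → VanishesAt (P i) 1 G) ∧
  AlgebraicIndependent (⊥ : Subfield k) (fun z : {z : Fin (p + q) × Fin 2 //
    z.2 = 0 ∨ z.1.val < 9 ∨ p ≤ z.1.val} => P z.1.1 z.1.2)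

/-- The value of the Waldschmidt constant when `9 (p - 9) ≤ p q`. -/
noncomputable def E (p q : ℕ) : ℝ :=
  if (p : ℝ) ≤ 3 * Real.sqrt ((p : ℝ) + q) then Real.sqrt ((p : ℝ) + q)
  else 3 + Real.sqrt ((q : ℝ) * (p - 9) / p)

/-- The weights of the points. -/
noncomputable def weight (p q : ℕ) (i : Fin (p + q)) : ℝ :=
  if (p : ℝ) ≤ 3 * Real.sqrt ((p : ℝ) + q) then 1 / Real.sqrt ((p : ℝ) + q)
  else if i.val < p then 3 / p else Real.sqrt ((p - 9) / ((p : ℝ) * q))

theorem result (k : Type u) [Field k] [IsAlgClosed k] (p q : ℕ) (hr : 9 < p + q) :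
    ((∃ v : Fin (2 * (p + q)) → k, AlgebraicIndependent (⊥ : Subfield k) v) →
      ∃ P : Fin (p + q) → Fin 2 → k, GenericOnCubic p q P) ∧
    ∀ P : Fin (p + q) → Fin 2 → k, GenericOnCubic p q P →
      ∃ e : ℝ, Tendsto (fun m : ℕ => (leastDegree P m : ℝ) / m) atTop (𝓝 e) ∧
        (e = Real.sqrt ((p : ℝ) + q) ↔ (p : ℝ) ≤ 3 * Real.sqrt ((p : ℝ) + q)) ∧
        (9 * p ≤ p * q + 81 →
          e = E p q ∧ (∀ m : ℕ, (m : ℝ) * E p q ≤ leastDegree P m) ∧
          ∑ i, weight p q i = E p q ∧
          ∀ (w : Fin (p + q) → ℕ) (d : ℕ) (F : MvPolynomial (Fin 3) k), F.IsHomogeneous d →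
            F ≠ 0 → (∀ i, VanishesAt (P i) (w i) F) → ∑ i, weight p q i * (w i : ℝ) ≤ d) := by
  refine ⟨?_, ?_⟩
  · rintro ⟨v, hv⟩
    exact Pool.Agent.KS6_83.NC.exists_gen p q hv
  · intro P hP
    have hG := Pool.Agent.KS6_83.NC.gen_of' hP.2 hP.1
    obtain ⟨e, h1, h2, h3⟩ := Pool.Agent.KS6_83.NC.all_pq hr hG hP.1
    exact ⟨e, h1, h2, fun hpq => ⟨h3 hpq,
      fun m => Pool.Agent.KS6_83.NC.alp_lower hr hpq hG m,
      Pool.Agent.KS6_83.NC.sum_wt hr hpq,
      fun w d F hF hF0 hw => Pool.Agent.KS6_83.NC.weighted hr hpq hG w d F hF hF0 hw⟩⟩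

end Pool.Agent.Results.MP_d0dfcd_ag.PointsOnCubic
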